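import Pool.Agent.H8.MC.GTargets
import Pool.Agent.H54.MC.CONN

/-!
# MP_64fb07_lc, board fol: row GRW, connected sets grow
-/

set_option autoImplicit false

namespace Pool.Agent.H77.MF

open Pool.Agent.H8.MC

theorem pf_GRW : T_GRW := by
  intro V _ G A X s hAX hA hX hAs hsX
  obtain ⟨k, hk⟩ : ∃ k, s = A.ncard + k := ⟨s - A.ncard, by omega⟩
  induction k generalizing A with
  | zero => exact ⟨A, subset_rfl, hAX, hA, by omega⟩
  | succ k ih =>
    obtain ⟨⟨a₀, ha₀⟩, hAc⟩ := (Pool.Agent.H54.MC.pf_con V G A).1 hA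
    have h1 : ∃ w ∈ X, w ∉ A ∧ ∃ a ∈ A, G.Adj a w := by
      by_contra hcon
      push Not at hcon
      have h2 := ((Pool.Agent.H54.MC.pf_con V G X).1 hX).2 A ⟨a₀, ha₀, hAX ha₀⟩ (by
        intro a b ha _ hb hab
        by_contra hbA
        exact hcon b hb hbA a ha hab)
      have h3 : X.ncard ≤ A.ncard := Set.ncard_le_ncard (fun x hx => h2 x hx) (Set.toFinite _)
      omega
    obtain ⟨w, hwX, hwA, a, ha, haw⟩ := h1
    have hA' : (G.induce (insert w A)).Connected := by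
      rw [Pool.Agent.H54.MC.pf_con V G (insert w A)]
      refine ⟨⟨w, Set.mem_insert _ _⟩, ?_⟩
      rintro Y ⟨c, hcY, hc⟩ hcl
      have h4 : ∀ c ∈ A, c ∈ Y → ∀ b ∈ A, b ∈ Y := by
        intro c hc hcY
        exact hAc Y ⟨c, hcY, hc⟩ (fun x y hx hxA hyA hxy =>
          hcl x y hx (Set.mem_insert_of_mem _ hxA) (Set.mem_insert_of_mem _ hyA) hxy)
      have h5 : w ∈ Y ∧ ∀ b ∈ A, b ∈ Y := by
        rcases Set.mem_insert_iff.1 hc with rfl | hcA
        · have h6 : a ∈ Y := hcl c a hcY hc (Set.mem_insert_of_mem _ ha) haw.symm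
          exact ⟨hcY, h4 a ha h6⟩
        · have h7 := h4 c hcA hcY
          exact ⟨hcl a w (h7 a ha) (Set.mem_insert_of_mem _ ha) (Set.mem_insert _ _) haw, h7⟩
      intro b hb
      rcases Set.mem_insert_iff.1 hb with rfl | hbA
      · exact h5.1
      · exact h5.2 b hbA
    have hcard : (insert w A).ncard = A.ncard + 1 :=
      Set.ncard_insert_of_notMem hwA (Set.toFinite _)
    obtain ⟨Y, hY1, hY2, hY3, hY4⟩ := ih (insert w A) (Set.insert_subset hwX hAX) hA'
      (by omega) (by omega)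
    exact ⟨Y, (Set.subset_insert _ _).trans hY1, hY2, hY3, hY4⟩

end Pool.Agent.H77.MF
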